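import Pool.Agent.Helper460_OutF.Final4
import Pool.Agent.Helper460_OutF.Closed

set_option autoImplicit false

namespace Pool.Agent.Results.MP_2d26dd_al.AllSubgroups

open Pool.Agent.Helper460_OutF

/-- Let `n ≥ 4`, let `Γ` be any finite-index subgroup of `Out(F_n)`, and let `m` be the index of
`T ∩ Γ` in the Torelli subgroup `T` of `Out(F_n)`. If `g * m ≤ n - 3` or
`g + 5 + log₂ m ≤ n`, every homomorphism `φ` from `Γ` to the mapping class group of the surface of
genus `g` with `p` punctures, such that the stabilisers of the punctures meet `T` in subgroups of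
index at most `2 ^ (n - 2)`, has finite image. -/
theorem result (n g p : ℕ) (hn : 4 ≤ n)
    (Γ : Subgroup (OutF n)) (hfi : Γ.FiniteIndex)
    (hg : g * Γ.relIndex (TorelliSub n) + 3 ≤ n ∨
      g + 5 + Nat.log 2 (Γ.relIndex (TorelliSub n)) ≤ n)
    (φ : Γ →* ModG g p)
    (hp : ∀ j : Fin p, (punctStab φ j).relIndex (TorelliSub n) ≤ 2 ^ (n - 2)) :
    Finite φ.range :=
  final_surface4 n g p hn (TG_SG g p) (AbQ_SG g p) Γ hfi hg φ hp

end Pool.Agent.Results.MP_2d26dd_al.AllSubgroups
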